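import Pool.Agent.Helper93.GS.Stmts

set_option autoImplicit false

namespace Pool.Agent.Helper93.GS

open Pool.Agent.Helper64.ORStar

theorem sign_mon {U : Type} [Group U] {S : Set U} {x : U} (hx : x ∈ Submonoid.closure S) :
    x = 1 ∨ x ∈ Subsemigroup.closure S := by
  induction hx using Submonoid.closure_induction with
  | mem x hx => exact Or.inr (Subsemigroup.subset_closure hx)
  | one => exact Or.inl rfl
  | mul x y _ _ h1 h2 =>
    rcases h1 with h1 | h1
    · rcases h2 with h2 | h2
      · left; rw [h1, h2, mul_one]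
      · right; rw [h1, one_mul]; exact h2
    · rcases h2 with h2 | h2
      · right; rw [h2, mul_one]; exact h1
      · right; exact mul_mem h1 h2

theorem sign_pow {U : Type} [Group U] {S : Set U} {x : U} (hx : x ∈ S) (k : ℕ) (hk : 0 < k) :
    x ^ k ∈ Subsemigroup.closure S := by
  induction k with
  | zero => omega
  | succ k ih =>
    rcases Nat.eq_zero_or_pos k with h | h
    · subst h; simpa using Subsemigroup.subset_closure hx
    · rw [pow_succ]; exact mul_mem (ih h) (Subsemigroup.subset_closure hx)

/-- the consequence of `ST_LN` in terms of a submonoid of the whole group -/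
theorem sign_LN (h1 : ST_LN) (U : Type) [Group U] (hU : Group.IsNilpotent U)
    (ht : ∀ (g : U) (k : ℕ), 0 < k → g ^ k = 1 → g = 1) (S A : Finset U)
    (hS : (1 : U) ∉ Subsemigroup.closure (S : Set U)) (hA : (1 : U) ∉ A)
    (hne : (∃ s, s ∈ S) ∨ ∃ a, a ∈ A) :
    ∃ M : Submonoid U, (∀ s ∈ S, s ∈ M) ∧ (∀ a ∈ A, a ∈ M ∨ a⁻¹ ∈ M) ∧
      ((∃ s ∈ S, s⁻¹ ∉ M) ∨ ∃ a ∈ A, a ∉ M ∨ a⁻¹ ∉ M) := by
  classical
  let W : Subgroup U := Subgroup.closure ((S : Set U) ∪ A)
  have hSW : ∀ s ∈ S, s ∈ W := fun s hs => Subgroup.subset_closure (Or.inl hs)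
  have hAW : ∀ a ∈ A, a ∈ W := fun a ha => Subgroup.subset_closure (Or.inr ha)
  haveI : Group.FG W := by
    rw [Group.fg_iff_subgroup_fg]
    exact ⟨S ∪ A, by rw [Finset.coe_union]⟩
  let P : Submonoid W := (Submonoid.closure (S : Set U)).comap W.subtype
  have hP : ∀ x : W, x ∈ P ↔ (x : U) ∈ Submonoid.closure (S : Set U) := fun x => Iff.rfl
  obtain ⟨M, hPM, -, htot, w, hw⟩ := h1 W inferInstance inferInstance P (by
    by_cases hs : ∃ s, s ∈ S
    · obtain ⟨s, hs⟩ := hs
      refine ⟨⟨s, hSW s hs⟩⁻¹, ?_⟩
      intro k hk hmem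
      rw [hP] at hmem
      push_cast at hmem
      have h2 := sign_pow (S := (S : Set U)) (x := s) hs k hk
      rcases sign_mon hmem with h3 | h3
      · rw [inv_pow, inv_eq_one] at h3
        rw [h3] at h2
        exact hS h2
      · have h4 := mul_mem h2 h3
        rw [inv_pow, mul_inv_cancel] at h4
        exact hS h4
    · have hS0 : (S : Set U) = ∅ := by
        ext x
        simp only [Set.mem_empty_iff_false, iff_false]
        exact fun hx => hs ⟨x, hx⟩
      obtain ⟨a, ha⟩ := hne.resolve_left hs
      refine ⟨⟨a, hAW a ha⟩, ?_⟩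
      intro k hk hmem
      rw [hP, hS0, Submonoid.closure_empty, Submonoid.mem_bot] at hmem
      push_cast at hmem
      have := ht a k hk hmem
      rw [this] at ha
      exact hA ha)
  let M' : Submonoid U := M.map W.subtype
  have hM' : ∀ (x : U) (hx : x ∈ W), x ∈ M' ↔ (⟨x, hx⟩ : W) ∈ M := by
    intro x hx
    constructor
    · rintro ⟨y, hy, hyx⟩
      have : y = ⟨x, hx⟩ := Subtype.ext hyx
      rw [← this]
      exact hy
    · intro h
      exact ⟨_, h, rfl⟩
  refine ⟨M', ?_, ?_, ?_⟩
  · intro s hs
    rw [hM' s (hSW s hs)]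
    apply hPM
    rw [hP]
    exact Submonoid.subset_closure hs
  · intro a ha
    rw [hM' a (hAW a ha), hM' a⁻¹ (W.inv_mem (hAW a ha))]
    exact htot ⟨a, hAW a ha⟩
  · by_contra hcon
    push Not at hcon
    obtain ⟨hc1, hc2⟩ := hcon
    apply hw
    have hmem : (w : U) ∈ M' := by
      let H : Subgroup U :=
        { carrier := {x | x ∈ M' ∧ x⁻¹ ∈ M'}
          mul_mem' := by
            rintro x y ⟨hx1, hx2⟩ ⟨hy1, hy2⟩
            refine ⟨mul_mem hx1 hy1, ?_⟩
            rw [mul_inv_rev]
            exact mul_mem hy2 hx2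
          one_mem' := ⟨one_mem _, by rw [inv_one]; exact one_mem _⟩
          inv_mem' := by
            rintro x ⟨hx1, hx2⟩
            exact ⟨hx2, by rw [inv_inv]; exact hx1⟩ }
      have hWH : W ≤ H := by
        rw [Subgroup.closure_le]
        rintro x (hx | hx)
        · refine ⟨?_, hc1 x hx⟩
          rw [hM' x (hSW x hx)]
          apply hPM
          rw [hP]
          exact Submonoid.subset_closure hx
        · exact hc2 x hx
      exact (hWH w.2).1
    rw [hM' w w.2] at hmem
    exact hmem

theorem sign_claim (h1 : ST_LN) (U : Type) [Group U] (hU : Group.IsNilpotent U)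
    (ht : ∀ (g : U) (k : ℕ), 0 < k → g ^ k = 1 → g = 1) :
    ∀ (n : ℕ) (S A : Finset U), S.card + A.card = n →
      (1 : U) ∉ Subsemigroup.closure (S : Set U) → (1 : U) ∉ A →
      ∃ B : Set U, (S : Set U) ⊆ B ∧ (∀ b ∈ B, b ∈ S ∨ b ∈ A ∨ b⁻¹ ∈ A) ∧
        (1 : U) ∉ Subsemigroup.closure B ∧ ∀ a ∈ A, a ∈ B ∨ a⁻¹ ∈ B := by
  classical
  intro n
  induction n using Nat.strong_induction_on with
  | _ n ih =>
  intro S A hn hS hA
  by_cases hne : (∃ s, s ∈ S) ∨ ∃ a, a ∈ A
  · obtain ⟨M, hMS, hMA, hMne⟩ := sign_LN h1 U hU ht S A hS hA hne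
    let H : U → Prop := fun x => x ∈ M ∧ x⁻¹ ∈ M
    have hHinv : ∀ x, H x⁻¹ → H x := by
      rintro x ⟨h2, h3⟩
      rw [inv_inv] at h3
      exact ⟨h3, h2⟩
    have hlt : (S.filter H).card + (A.filter H).card < n := by
      have e1 : (S.filter H).card ≤ S.card := Finset.card_filter_le _ _
      have e2 : (A.filter H).card ≤ A.card := Finset.card_filter_le _ _
      rcases hMne with ⟨s, hs, hs2⟩ | ⟨a, ha, ha2⟩
      · have : (S.filter H).card < S.card := by
          apply Finset.card_lt_card
          rw [Finset.filter_ssubset]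
          exact ⟨s, hs, fun h => hs2 h.2⟩
        omega
      · have : (A.filter H).card < A.card := by
          apply Finset.card_lt_card
          rw [Finset.filter_ssubset]
          refine ⟨a, ha, fun h => ?_⟩
          rcases ha2 with ha2 | ha2
          · exact ha2 h.1
          · exact ha2 h.2
        omega
    obtain ⟨B', hB1, hB2, hB3, hB4⟩ := ih _ hlt (S.filter H) (A.filter H) rfl (by
        intro h
        apply hS
        refine Subsemigroup.closure_mono ?_ h
        intro x hx
        exact (Finset.mem_filter.1 hx).1)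
      (fun h => hA (Finset.mem_filter.1 h).1)
    have hB'H : ∀ b ∈ B', H b := by
      intro b hb
      rcases hB2 b hb with h | h | h
      · exact (Finset.mem_filter.1 h).2
      · exact (Finset.mem_filter.1 h).2
      · exact hHinv _ (Finset.mem_filter.1 h).2
    refine ⟨(S : Set U) ∪ B' ∪ {b | (b ∈ A ∨ b⁻¹ ∈ A) ∧ b ∈ M ∧ ¬ H b}, ?_, ?_, ?_, ?_⟩
    · intro x hx
      exact Or.inl (Or.inl hx)
    · rintro b ((hb | hb) | hb)
      · exact Or.inl hb
      · rcases hB2 b hb with h | h | h
        · exact Or.inl (Finset.mem_filter.1 h).1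
        · exact Or.inr (Or.inl (Finset.mem_filter.1 h).1)
        · exact Or.inr (Or.inr (Finset.mem_filter.1 h).1)
      · exact Or.inr hb.1
    · have key : ∀ x, x ∈ Subsemigroup.closure
          ((S : Set U) ∪ B' ∪ {b | (b ∈ A ∨ b⁻¹ ∈ A) ∧ b ∈ M ∧ ¬ H b}) →
          x ∈ M ∧ (¬ H x ∨ x ∈ Subsemigroup.closure B') := by
        intro x hx
        induction hx using Subsemigroup.closure_induction with
        | mem x hx =>
          rcases hx with (hx | hx) | hx
          · refine ⟨hMS x hx, ?_⟩
            by_cases h : H x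
            · right
              apply Subsemigroup.subset_closure
              apply hB1
              exact Finset.mem_coe.2 (Finset.mem_filter.2 ⟨hx, h⟩)
            · exact Or.inl h
          · exact ⟨(hB'H x hx).1, Or.inr (Subsemigroup.subset_closure hx)⟩
          · exact ⟨hx.2.1, Or.inl hx.2.2⟩
        | mul x y _ _ hx hy =>
          obtain ⟨hx1, hx2⟩ := hx
          obtain ⟨hy1, hy2⟩ := hy
          refine ⟨mul_mem hx1 hy1, ?_⟩
          by_cases h : H (x * y)
          · right
            have hHx : H x := by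
              refine ⟨hx1, ?_⟩
              have := mul_mem hy1 h.2
              rw [mul_inv_rev, mul_inv_cancel_left] at this
              exact this
            have hHy : H y := by
              refine ⟨hy1, ?_⟩
              have := mul_mem h.2 hx1
              rw [mul_inv_rev, inv_mul_cancel_right] at this
              exact this
            exact mul_mem (hx2.resolve_left (fun h' => h' hHx))
              (hy2.resolve_left (fun h' => h' hHy))
          · exact Or.inl h
      intro h
      rcases (key 1 h).2 with h2 | h2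
      · exact h2 ⟨one_mem _, by rw [inv_one]; exact one_mem _⟩
      · exact hB3 h2
    · intro a ha
      by_cases h : H a
      · rcases hB4 a (Finset.mem_filter.2 ⟨ha, h⟩) with h2 | h2
        · exact Or.inl (Or.inl (Or.inr h2))
        · exact Or.inr (Or.inl (Or.inr h2))
      · rcases hMA a ha with h2 | h2
        · exact Or.inl (Or.inr ⟨Or.inl ha, h2, h⟩)
        · refine Or.inr (Or.inr ⟨Or.inr (by rw [inv_inv]; exact ha), h2, fun h3 => h (hHinv a h3)⟩)
  · push Not at hne
    refine ⟨∅, ?_, ?_, ?_, ?_⟩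
    · intro x hx
      exact absurd hx (hne.1 x)
    · intro b hb
      exact absurd hb (Set.notMem_empty b)
    · rw [Subsemigroup.closure_empty]
      exact Subsemigroup.notMem_bot
    · intro a ha
      exact absurd ha (hne.2 a)

theorem st_SIGN (h1 : ST_LN) : ST_SIGN := by
  intro U _ hU ht S A hS hA
  obtain ⟨B, hB1, -, hB3, hB4⟩ := sign_claim h1 U hU ht _ S A rfl hS hA
  refine ⟨⟨Subsemigroup.closure B, fun a ha b hb => mul_mem ha hb, hB3⟩, ?_, ?_⟩
  · intro x hx
    exact Subsemigroup.subset_closure (hB1 hx)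
  · intro a ha
    rcases hB4 a ha with h | h
    · exact Or.inl (Subsemigroup.subset_closure h)
    · exact Or.inr (Subsemigroup.subset_closure h)

end Pool.Agent.Helper93.GS
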